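import Mathlib

set_option autoImplicit false

namespace Pool.Agent.Results.MP_146262_an.Main

open Set Topology Filter Metric

/-- The rational vector space with a countable basis. -/
abbrev V : Type := ℕ →₀ ℚ

/-- Pseudonorms. -/
def IsPseudonorm (μ : V → ℝ) : Prop :=
  (∀ v, 0 ≤ μ v) ∧ (∀ u v, μ (u + v) ≤ μ u + μ v) ∧ ∀ (q : ℚ) v, μ (q • v) = |(q : ℝ)| * μ v

/-- The Banach space coded by the pseudonorm has the property. -/
def Has (Q : (X : Type) → [NormedAddCommGroup X] → [NormedSpace ℝ X] → Prop) (μ : V → ℝ) : Prop :=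
  ∃ (X : Type) (_ : NormedAddCommGroup X) (_ : NormedSpace ℝ X) (j : V →+ X),
    CompleteSpace X ∧ DenseRange j ∧ (∀ v, ‖j v‖ = μ v) ∧ Q X

/-- The space of codes of infinite-dimensional separable Banach spaces. -/
abbrev Pinf : Type := {μ : V → ℝ // IsPseudonorm μ ∧ Has (fun X => ¬ FiniteDimensional ℝ X) μ}

/-- Relatively weakly open subsets of the closed unit ball. -/
def WOpen {X : Type} [NormedAddCommGroup X] [NormedSpace ℝ X] (W : Set X) : Prop :=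
  ∃ U : Set (WeakSpace ℝ X), IsOpen U ∧ W = toWeakSpace ℝ X ⁻¹' U ∩ closedBall 0 1

/-- The diameter two property. -/
def D2P (X : Type) [NormedAddCommGroup X] [NormedSpace ℝ X] : Prop :=
  ∀ W : Set X, WOpen W → W.Nonempty → diam W = 2

/-- The diametral diameter two property. -/
def DD2P (X : Type) [NormedAddCommGroup X] [NormedSpace ℝ X] : Prop :=
  ∀ W : Set X, WOpen W → ∀ x ∈ W, ∀ ε > 0, ∃ y ∈ W, 1 + ‖x‖ - ε ≤ ‖x - y‖

abbrev J := Icc (-1 : ℝ) 1

def Ad (μ : V → ℝ) (t : V → J) : Prop := ∀ u v, t (u + v) * μ (u + v) = t u * μ u + t v * μ v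

def C (n k : ℕ) (x : V) (p : V × V) (μ : V → ℝ) (t : Fin n → V → J) : Prop :=
  ∀ i, |t i (x - p.1) * μ (x - p.1)| < 1 / (k + 1) ∧ |t i (x - p.2) * μ (x - p.2)| < 1 / (k + 1)

theorem oc (n k : ℕ) (x : V) (p : V × V) :
    IsOpen {q : (V → ℝ) × (Fin n → V → J) | C n k x p q.1 q.2} := by
  simp only [C, setOf_forall, setOf_and]
  exact isOpen_iInter_of_finite fun i => (isOpen_lt (by fun_prop) continuous_const).inter
    (isOpen_lt (by fun_prop) continuous_const)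

theorem ca (n : ℕ) : IsClosed {q : (V → ℝ) × (Fin n → V → J) | ∀ i, Ad q.1 (q.2 i)} := by
  simp only [Ad, setOf_forall]
  exact isClosed_iInter fun i => isClosed_iInter fun u => isClosed_iInter fun v =>
    isClosed_eq (by fun_prop) (by fun_prop)

def G (O : V → ℕ → V × V → Set (V → ℝ)) : Set (V → ℝ) :=
  {μ | ∀ x, μ x < 1 → ∀ m n k : ℕ, ∃ s : Finset (V × V), (∀ p ∈ s, μ ∈ O x m p) ∧
    ∀ t : Fin n → V → J, (∀ i, Ad μ (t i)) → ∃ p ∈ s, C n k x p μ t}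

theorem gd {O : V → ℕ → V × V → Set (V → ℝ)} (h : ∀ x m p, IsOpen (O x m p)) : IsGδ (G O) := by
  rw [G, setOf_forall]
  refine .iInter fun x => ?_
  simp only [imp_iff_not_or (a := _ < (1 : ℝ)), setOf_or]
  refine (isClosed_compl_iff.2 (isOpen_lt (f := fun μ : V → ℝ => μ x)
    (continuous_apply x) continuous_const)).isGδ.union ?_
  refine setOf_forall _ ▸ .iInter fun m => setOf_forall _ ▸ .iInter fun n => setOf_forall _ ▸
    .iInter fun k => setOf_exists _ ▸ IsOpen.isGδ (isOpen_iUnion fun s => IsOpen.inter ?_ ?_)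
  · convert isOpen_biInter_finset (s := s) fun p _ => h x m p using 1
    exact Set.ext fun μ => mem_iInter₂.symm
  · convert (isClosedMap_fst_of_compactSpace _ ((ca n).sdiff (isOpen_biUnion (s := s)
      fun p _ => oc n k x p))).isOpen_compl using 1
    refine Set.ext fun μ => ⟨fun a ⟨q, b, c⟩ => ?_, fun a t b => by_contra fun c =>
      a ⟨(μ, t), ⟨b, fun d => c (mem_iUnion₂.1 d |>.imp fun _ e => exists_prop.1 e)⟩, rfl⟩⟩
    obtain ⟨p, p1, p2⟩ := a q.2 (c ▸ b.1)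
    exact b.2 (mem_iUnion₂.2 ⟨p, p1, (c ▸ p2 : C n k x p q.1 q.2)⟩)

section
variable {X : Type} [NormedAddCommGroup X] [NormedSpace ℝ X] {j : V →+ X} {μ : V → ℝ}

theorem ext (hj : DenseRange j) (f : V →+ ℝ) (h : ∀ v, |f v| ≤ ‖j v‖) :
    ∃ g : StrongDual ℝ X, ∀ v, g (j v) = f v := by
  let Γ := (j.prod f).range.topologicalClosure
  have a : ∀ p ∈ Γ, |p.2| ≤ ‖p.1‖ := fun p hp =>
    (isClosed_le continuous_snd.abs continuous_fst.norm).closure_subset_iff.2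
      (by rintro _ ⟨v, rfl⟩; exact h v) hp
  have b : ∀ x, ∃ t, (x, t) ∈ Γ := fun x => by
    obtain ⟨u, u1, u2⟩ := mem_closure_iff_seq_limit.1 (hj x)
    choose v hv using u1
    obtain ⟨M, hM⟩ := u2.norm.bddAbove_range
    obtain ⟨t, -, φ, p1, p2⟩ := tendsto_subseq_of_bounded (isBounded_closedBall (x := (0 : ℝ)))
      (x := fun n => f (v n)) fun n => mem_closedBall_zero_iff.2
        ((h _).trans (hM ⟨n, by rw [hv]⟩))
    exact ⟨t, mem_closure_of_tendsto ((u2.comp p1.tendsto_atTop).prodMk_nhds p2)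
      (Eventually.of_forall fun n => ⟨v (φ n), Prod.ext (hv _) rfl⟩)⟩
  choose g hg using b
  have c : ∀ x t, (x, t) ∈ Γ → g x = t := fun x t e => by
    simpa [sub_eq_zero] using a _ (sub_mem (hg x) e)
  let g' := AddMonoidHom.mk' g fun x y => c _ _ (add_mem (hg x) (hg y))
  exact ⟨g'.toRealLinearMap (AddMonoidHomClass.continuous_of_bound g' 1 fun x => by
    rw [one_mul]; exact a _ (hg x)), fun v => c _ _ (subset_closure ⟨v, rfl⟩)⟩

def Wk (x : X) (A : Set (X × X)) : Prop := ∀ (n : ℕ) (f : Fin n → StrongDual ℝ X) (δ : ℝ), 0 < δ →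
  ∃ p ∈ A, ∀ i, |f i (x - p.1)| < δ ∧ |f i (x - p.2)| < δ

theorem ow (n : ℕ) (f : Fin n → StrongDual ℝ X) (δ : ℝ) (x : X) :
    IsOpen {p : X × X | ∀ i, |f i (x - p.1)| < δ ∧ |f i (x - p.2)| < δ} := by
  simp only [setOf_forall, setOf_and]
  exact isOpen_iInter_of_finite fun i => (isOpen_lt (by fun_prop) continuous_const).inter
    (isOpen_lt (by fun_prop) continuous_const)

theorem gen (hj : DenseRange j) (hμ : ∀ v, ‖j v‖ = μ v) (x : V) {A : Set (X × X)} (hA : IsOpen A) :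
    (∀ n k : ℕ, ∃ s : Finset (V × V), (∀ p ∈ s, (j p.1, j p.2) ∈ A) ∧
      ∀ t : Fin n → V → J, (∀ i, Ad μ (t i)) → ∃ p ∈ s, C n k x p μ t) ↔ Wk (j x) A := by
  classical
  refine ⟨fun h n f δ hδ => ?_, fun h n k => ?_⟩
  · obtain ⟨M, hM⟩ := (finite_range fun i => ‖f i‖).bddAbove
    have M0 : 0 < |M| + 1 := by positivity
    obtain ⟨k, hk⟩ := exists_nat_one_div_lt (div_pos hδ M0)
    have a : ∀ i v, ∃ t : J, t * μ v = f i (j v) / (|M| + 1) := fun i v => by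
      have b : |f i (j v)| ≤ (|M| + 1) * μ v := ((f i).le_opNorm _).trans (by
        rw [hμ]
        exact mul_le_mul_of_nonneg_right (by linarith [hM ⟨i, rfl⟩, le_abs_self M])
          (hμ v ▸ norm_nonneg _))
      rcases (hμ v ▸ norm_nonneg (j v) : 0 ≤ μ v).eq_or_lt with e | e
      · exact ⟨⟨0, by simp⟩, by rw [← e, mul_zero] at b ⊢; rw [abs_nonpos_iff.1 b, zero_div]⟩
      · exact ⟨⟨f i (j v) / ((|M| + 1) * μ v), abs_le.1 (by
          rwa [abs_div, abs_of_pos (mul_pos M0 e), div_le_one (mul_pos M0 e)])⟩, by field_simp⟩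
    choose t ht using a
    obtain ⟨s, s1, s2⟩ := h n k
    obtain ⟨p, p1, p2⟩ := s2 t fun i u v => by simp only [ht, map_add, add_div]
    have b : ∀ i v, |t i (x - v) * μ (x - v)| < 1 / (k + 1) → |f i (j x - j v)| < δ := fun i v e => by
      rw [ht, abs_div, abs_of_pos M0, map_sub j] at e
      exact (div_lt_div_iff_of_pos_right M0).1 (e.trans hk)
    exact ⟨_, s1 p p1, fun i => ⟨b i _ (p2 i).1, b i _ (p2 i).2⟩⟩
  · have a : ∀ t : Fin n → V → J, (∀ i, Ad μ (t i)) →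
        ∃ p : V × V, (j p.1, j p.2) ∈ A ∧ C n k x p μ t := fun t ht => by
      choose g hg using fun i => ext hj (AddMonoidHom.mk' (fun v => t i v * μ v) (ht i)) fun v => by
        change |t i v * μ v| ≤ _
        rw [abs_mul, ← hμ, abs_norm]
        exact mul_le_of_le_one_left (norm_nonneg _) (abs_le.2 (t i v).2)
      obtain ⟨p, p1, p2⟩ := (hj.prodMap hj).exists_mem_open (hA.inter (ow n g _ (j x)))
        (h n g _ (Nat.one_div_pos_of_nat (n := k)))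
      exact ⟨p, p1, fun i => by simpa only [Prod.map, ← map_sub j, hg, AddMonoidHom.mk'_apply] using p2 i⟩
    choose! P P1 P2 using a
    obtain ⟨s, s1, s2⟩ := ((ca n).preimage (Continuous.prodMk_right μ)).isCompact.elim_nhds_subcover
      (fun t => {t' | C n k x (P t) μ t'}) fun t ht =>
        ((oc n k x _).preimage (Continuous.prodMk_right μ)).mem_nhds (P2 t ht)
    refine ⟨s.image P, fun p hp => ?_, fun t ht => ?_⟩
    · obtain ⟨t, t1, rfl⟩ := Finset.mem_image.1 hp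
      exact P1 t (s1 t t1)
    · obtain ⟨u, u1, u2⟩ := mem_iUnion₂.1 (s2 ht)
      exact ⟨_, Finset.mem_image_of_mem P u1, u2⟩

theorem w1 (n : ℕ) (f : Fin n → StrongDual ℝ X) (δ : ℝ) (x : X) :
    WOpen ({y | ∀ i, |f i (x - y)| < δ} ∩ closedBall 0 1) := by
  refine ⟨{y | ∀ i, |f i x - f i y| < δ}, ?_, by simp only [map_sub]; rfl⟩
  simp only [setOf_forall]
  exact isOpen_iInter_of_finite fun i => isOpen_lt (continuous_const.sub
    (WeakBilin.eval_continuous (topDualPairing ℝ X).flip (f i))).abs continuous_const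

theorem w2 (hj : DenseRange j) {W : Set X} (hW : WOpen W) {w : X} (hw : w ∈ W) {ε : ℝ}
    (hε : 0 < ε) : ∃ (x : V) (n : ℕ) (f : Fin n → StrongDual ℝ X) (δ : ℝ), 0 < δ ∧ ‖j x‖ < 1 ∧
      ‖w - j x‖ < ε ∧ ∀ y, ‖y‖ < 1 → (∀ i, |f i (j x - y)| < δ) → y ∈ W := by
  obtain ⟨U, hU, rfl⟩ := hW
  obtain ⟨T, t1, t2⟩ := (mem_nhds_induced _ _ _).1 (hU.mem_nhds hw.1)
  rw [nhds_pi] at t1
  obtain ⟨I, i1, S, s1, s2⟩ := mem_pi.1 t1
  obtain ⟨δ, d1, d0⟩ : ∃ δ, (∀ f ∈ I, ball (f w) δ ⊆ S f) ∧ 0 < δ :=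
    ((((eventually_all_finite i1).2 fun f _ => eventually_ball_subset (s1 f)).filter_mono
      (nhdsWithin_le_nhds (s := Ioi 0))).and self_mem_nhdsWithin).exists
  obtain ⟨n, f, -, rfl⟩ := i1.fin_param
  have o : IsOpen ({y | ∀ i, |f i (w - y)| < δ / 2} ∩ ball w ε) := by
    simp only [setOf_forall]
    exact (isOpen_iInter_of_finite fun i => isOpen_lt (by fun_prop) continuous_const).inter
      isOpen_ball
  obtain ⟨x, x1, x2⟩ := hj.exists_mem_open (o.inter isOpen_ball) (mem_closure_iff.1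
    ((closure_ball (0 : X) one_ne_zero).ge hw.2) _ o ⟨fun i => by simpa using d0, mem_ball_self hε⟩)
  refine ⟨x, n, f, δ / 2, half_pos d0, mem_ball_zero_iff.1 x2, mem_ball_iff_norm'.1 x1.2,
    fun y y1 y2 => ⟨t2 (s2 ?_), mem_closedBall_zero_iff.2 y1.le⟩⟩
  rintro _ ⟨i, rfl⟩
  refine d1 _ ⟨i, rfl⟩ ?_
  have a := abs_lt.1 (x1.1 i)
  have b := abs_lt.1 (y2 i)
  rw [map_sub] at a b
  change |f i y - f i w| < δ
  exact abs_lt.2 ⟨by linarith, by linarith⟩

theorem sh {O : Set (X × X)} (o : IsOpen O) {y z : X} (h : (y, z) ∈ O) (y1 : y ∈ closedBall 0 1)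
    (z1 : z ∈ closedBall 0 1) : ∃ p ∈ O, ‖p.1‖ < 1 ∧ ‖p.2‖ < 1 := by
  rw [← closure_ball (0 : X) one_ne_zero] at y1 z1
  obtain ⟨p, p1, p2⟩ := mem_closure_iff.1 (closure_prod_eq.ge (mk_mem_prod y1 z1)) _ o h
  exact ⟨p, p1, mem_ball_zero_iff.1 p2.1, mem_ball_zero_iff.1 p2.2⟩

def O1 (_ : V) (m : ℕ) (p : V × V) : Set (V → ℝ) :=
  {μ | 2 - 1 / (m + 1) < μ (p.1 - p.2) ∧ μ p.1 < 1 ∧ μ p.2 < 1}

def O2 (x : V) (m : ℕ) (p : V × V) : Set (V → ℝ) :=
  {μ | 1 + μ x - 1 / (m + 1) < μ (x - p.1) ∧ μ p.1 < 1 ∧ μ p.2 < 1}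

theorem ob {g h : X × X → ℝ} (a : Continuous g) (b : Continuous h) :
    IsOpen {p : X × X | g p < h p ∧ ‖p.1‖ < 1 ∧ ‖p.2‖ < 1} :=
  (isOpen_lt a b).inter ((isOpen_lt continuous_fst.norm continuous_const).inter
    (isOpen_lt continuous_snd.norm continuous_const))

theorem e1 (hj : DenseRange j) (hμ : ∀ v, ‖j v‖ = μ v) : μ ∈ G O1 ↔ D2P X := by
  have a : μ ∈ G O1 ↔ ∀ x, ‖j x‖ < 1 → ∀ m : ℕ,
      Wk (j x) {p | 2 - 1 / (m + 1) < ‖p.1 - p.2‖ ∧ ‖p.1‖ < 1 ∧ ‖p.2‖ < 1} :=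
    forall_congr' fun x => by
      rw [hμ]
      refine forall₂_congr fun _ m => ?_
      rw [← gen hj hμ x (ob continuous_const (by fun_prop))]
      simp only [O1, mem_setOf_eq, ← map_sub, hμ]
  have b : ∀ W : Set X, WOpen W → W ⊆ closedBall 0 1 := by
    rintro _ ⟨U, -, rfl⟩
    exact inter_subset_right
  refine a.trans ⟨fun h W w ⟨x, hx⟩ => le_antisymm ((diam_mono (b W w) isBounded_closedBall).trans
    ((diam_closedBall zero_le_one).trans_eq (mul_one 2))) (le_of_forall_sub_le fun ε hε => ?_),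
    fun h x hx m n f δ hδ => ?_⟩
  · obtain ⟨v, n, f, δ, d0, d1, -, d2⟩ := w2 hj w hx hε
    obtain ⟨m, hm⟩ := exists_nat_one_div_lt hε
    obtain ⟨p, p1, p2⟩ := h v d1 m n f δ d0
    have := dist_le_diam_of_mem (isBounded_closedBall.subset (b W w))
      (d2 _ p1.2.1 fun i => (p2 i).1) (d2 _ p1.2.2 fun i => (p2 i).2)
    rw [dist_eq_norm] at this
    linarith [p1.1]
  · have c := h _ (w1 n f δ (j x)) ⟨j x, fun i => by simpa using hδ, mem_closedBall_zero_iff.2 hx.le⟩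
    have p : (0 : ℝ) < 1 / (m + 1) := Nat.one_div_pos_of_nat
    have p' : (1 : ℝ) / (m + 1) ≤ 1 := (div_le_one (by positivity)).2 (by simp)
    by_contra! d
    refine (c.ge.trans (diam_le_of_forall_dist_le (C := 2 - 1 / (m + 1)) (by linarith)
      fun y y1 z z1 => le_of_not_gt fun e => ?_)).not_gt (by linarith)
    obtain ⟨q, q1, q2⟩ := sh ((isOpen_lt (f := fun _ => 2 - 1 / ((m : ℝ) + 1)) continuous_const
      (continuous_fst.sub continuous_snd).norm).inter (ow n f δ (j x)))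
      ⟨by rwa [dist_eq_norm] at e, fun i => ⟨y1.1 i, z1.1 i⟩⟩ y1.2 z1.2
    obtain ⟨i, hi⟩ := d q ⟨q1.1, q2⟩
    exact (hi (q1.2 i).1).not_gt (q1.2 i).2

theorem e2 (hj : DenseRange j) (hμ : ∀ v, ‖j v‖ = μ v) : μ ∈ G O2 ↔ DD2P X := by
  have a : μ ∈ G O2 ↔ ∀ x, ‖j x‖ < 1 → ∀ m : ℕ,
      Wk (j x) {p | 1 + ‖j x‖ - 1 / (m + 1) < ‖j x - p.1‖ ∧ ‖p.1‖ < 1 ∧ ‖p.2‖ < 1} :=
    forall_congr' fun x => by
      rw [hμ]
      refine forall₂_congr fun _ m => ?_
      rw [← gen hj hμ x (ob continuous_const (by fun_prop))]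
      simp only [O2, mem_setOf_eq, ← map_sub, hμ]
  refine a.trans ⟨fun h W w x hx ε hε => ?_, fun h x hx m n f δ hδ => ?_⟩
  · have e : 0 < ε / 3 := by positivity
    obtain ⟨v, n, f, δ, d0, d1, d3, d2⟩ := w2 hj w hx e
    obtain ⟨m, hm⟩ := exists_nat_one_div_lt e
    obtain ⟨p, p1, p2⟩ := h v d1 m n f δ d0
    refine ⟨_, d2 _ p1.2.1 fun i => (p2 i).1, ?_⟩
    linarith [p1.1, norm_sub_norm_le x (j v), norm_sub_le_norm_sub_add_norm_sub (j v) x p.1,
      norm_sub_rev x (j v)]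
  · have p : (0 : ℝ) < 1 / (m + 1) := Nat.one_div_pos_of_nat
    have x1 := mem_closedBall_zero_iff.2 hx.le
    obtain ⟨y, y1, y2⟩ := h _ (w1 n f δ (j x)) _ ⟨fun i => by simpa using hδ, x1⟩ _ (half_pos p)
    obtain ⟨q, q1, q2⟩ := sh ((isOpen_lt (f := fun _ => 1 + ‖j x‖ - 1 / ((m : ℝ) + 1))
      continuous_const (continuous_const.sub continuous_fst).norm).inter (ow n f δ (j x)))
      ⟨show _ < ‖j x - y‖ by linarith, fun i => ⟨y1.1 i, by simpa using hδ⟩⟩ y1.2 x1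
    exact ⟨q, ⟨q1.1, q2⟩, q1.2⟩

end

theorem key {Q Q' : (X : Type) → [NormedAddCommGroup X] → [NormedSpace ℝ X] → Prop} {μ : V → ℝ}
    {p : Prop} (h' : Has Q' μ) (h : ∀ (X : Type) [NormedAddCommGroup X] [NormedSpace ℝ X]
      (j : V →+ X), DenseRange j → (∀ v, ‖j v‖ = μ v) → (p ↔ Q X)) : Has Q μ ↔ p := by
  obtain ⟨X, _, _, j, a, b, c, -⟩ := h'
  exact ⟨fun ⟨_, _, _, _, _, b, c, d⟩ => (h _ _ b c).2 d,
    fun d => ⟨X, _, _, j, a, b, c, (h _ _ b c).1 d⟩⟩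

theorem result : IsGδ {μ : Pinf | Has D2P μ.1} ∧ IsGδ {μ : Pinf | Has DD2P μ.1} := by
  have o : ∀ {g h : (V → ℝ) → ℝ} (p : V × V), Continuous g → Continuous h →
      IsOpen {μ : V → ℝ | g μ < h μ ∧ μ p.1 < 1 ∧ μ p.2 < 1} := fun p a b =>
    (isOpen_lt a b).inter ((isOpen_lt (continuous_apply _) continuous_const).inter
      (isOpen_lt (continuous_apply _) continuous_const))
  exact ⟨(congrArg IsGδ (Set.ext fun μ : Pinf => key μ.2.2 fun _ _ _ _ => e1)).mpr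
    ((gd fun x m p => o p (by fun_prop) (by fun_prop)).preimage continuous_subtype_val),
    (congrArg IsGδ (Set.ext fun μ : Pinf => key μ.2.2 fun _ _ _ _ => e2)).mpr
    ((gd fun x m p => o p (by fun_prop) (by fun_prop)).preimage continuous_subtype_val)⟩

end Pool.Agent.Results.MP_146262_an.Main
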